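import Pool.Agent.H868.PL.Dd

/-!
MP_53b7aa_ag, at least four variables: complete intersections of products of linear forms, the powers of
a general linear form.

Let `n = m + 3 ≥ 4` and let `A = K[x_1, …, x_n] / (f_1, …, f_m, F_0, F_1, F_2)` be a complete intersection
over a field of characteristic zero, `f_j` a product of `d_j ≥ 1` linear forms; `F_0`, `F_1`, `F_2` are
arbitrary forms of degrees `a`, `b`, `c` (for example products of linear forms as well). Let
`e = ∑ (d_j - 1)` over `j ≤ m`, and let `s = (a - 1) + (b - 1) + (c - 1) + e` be the socle degree. There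
is a linear form `ℓ` such that `ℓ ^ k : A_i → A_(i+k)` is injective if `2 i + k ≤ b + c` and
`2 i + k ≤ a + b + c - 3`, and surjective in the dual range. So all the maps with
`|2 i + k - s| ≥ e + max (a - 3, 0)` have maximal rank, and for the strong Lefschetz property only a
number of diagonals `2 i + k = const` is left which does not depend on `b` and `c`. If `n = 4`, `f_1` is a
product of two linear forms and one of the other generators has degree at most three, then only the maps
`A_i → A_(s-i)` between dual degrees are left.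

**Proof.** It is enough to find `ℓ` with the injectivity (duality). The injectivity of `ℓ ^ k` on `A_i` is
an open condition for `ℓ`. Let `f_1 = p q` with a linear form `p`. If the theorem holds for
`(p, f_2, …)` and for `(q, f_2, …)`, take `ℓ` general for both, and let `ℓ ^ k u` be in `(f_1, f_2, …)`,
`deg u = i`. Then `u` is in `(p, f_2, …)`, so `u = p w` modulo `(f_2, …)`, `ℓ ^ k w` is in `(q, f_2, …)`,
and `w` too, as the bound for `2 i + k` depends only on `a`, `b`, `c`. So `u` is in `(f_1, f_2, …)`. In this
way one comes to linear forms `f_1, …, f_m`, that is to three variables, where this is my result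
`MP_844031_ag.CodimensionThree`.
-/

namespace Pool.Agent.Results.MP_53b7aa_ag.DiagonalRange

open MvPolynomial

universe u

/-- `f` is a regular sequence of forms of degrees `d j ≥ 1` in `m + 3` variables. The indices `j < m` are
written `Fin.castAdd 3 j`, the last three ones are `Fin.natAdd m 0`, `Fin.natAdd m 1`, `Fin.natAdd m 2`.
The list `p j` contains the linear factors of the form with index `j < m`. The socle degree is
`∑ j, (d j - 1)`. -/
theorem result (K : Type u) [Field K] [CharZero K] (m : ℕ) (hm : 1 ≤ m)
    (f : Fin (m + 3) → MvPolynomial (Fin (m + 3)) K) (d : Fin (m + 3) → ℕ)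
    (hf : ∀ j, (f j).IsHomogeneous (d j)) (hd : ∀ j, 1 ≤ d j)
    (hreg : RingTheory.Sequence.IsRegular (MvPolynomial (Fin (m + 3)) K) (List.ofFn f))
    (p : Fin m → List (MvPolynomial (Fin (m + 3)) K))
    (hp : ∀ j : Fin m, f (Fin.castAdd 3 j) = (p j).prod)
    (hlin : ∀ j : Fin m, ∀ q ∈ p j, q.IsHomogeneous 1)
    (a b c s : ℕ) (ha : a = d (Fin.natAdd m 0)) (hb : b = d (Fin.natAdd m 1))
    (hc : c = d (Fin.natAdd m 2)) (hs : s = ∑ j, (d j - 1)) :
    ∃ ℓ : MvPolynomial (Fin (m + 3)) K, ℓ.IsHomogeneous 1 ∧ ∀ i k : ℕ,
      (2 * i + k ≤ b + c → 2 * i + k + 3 ≤ a + b + c →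
        ∀ g : MvPolynomial (Fin (m + 3)) K, g.IsHomogeneous i →
          ℓ ^ k * g ∈ Ideal.span (Set.range f) → g ∈ Ideal.span (Set.range f)) ∧
      (2 * s ≤ 2 * i + k + (b + c) → 2 * s + 3 ≤ 2 * i + k + (a + b + c) →
        ∀ h : MvPolynomial (Fin (m + 3)) K, h.IsHomogeneous (i + k) →
          ∃ g : MvPolynomial (Fin (m + 3)) K, g.IsHomogeneous i ∧
            h - ℓ ^ k * g ∈ Ideal.span (Set.range f)) := by
  subst ha hb hc hs
  exact Pool.Agent.H868.PL.main_diag hf hd
    (H503R3.QCI.reg_of_isWeaklyRegular hreg.toIsWeaklyRegular) p hp hlin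

end Pool.Agent.Results.MP_53b7aa_ag.DiagonalRange
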